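import Pool.Agent.NH28.Unif

set_option autoImplicit false

/-!
# Approximation of the points of a variety by points of bounded degree

`X = {G = 0}` is an integral closed subscheme of dimension `ν ≥ 1` of `ℙ^(n-1)` over a number field
`K`, and `Y i = X ∩ {F i 0 = ... = F i (ν - 1) = 0}`, `i < q`, are finite subschemes of `X` defined
by `ν` forms of degree `d i`, pairwise disjoint (for instance distinct `K`-rational points of
`X = ℙ^ν`, with `d i = 1`). Let `S` be ANY finite set of primes of `K` and `r ≥ 1`. For a point `x`
of `X` with residue field `L` of degree at most `r` over `K` and a place `w` of `L` let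
`ρ_w = [L : K] / [L_w : K_v] ≤ r`, where `v` is the place of `K` below `w`. Outside a proper closed
subset of `X` which does not depend on `S`,
`∑ w, (∑ i, λ_{Y i, w}(x) / d i) / k(ν, ρ_w) ≤ (1 + ε) h(x) + C`, where `w` runs through the
archimedean places and the places over `S` of the residue field (or through a part of them), and
`k(ν, ρ) = ((ν + 1) / ν) ρ ^ (1 / ν)`. In particular
`∑ i, m_{S, Y i}(x) / d i ≤ (((ν + 1) / ν) r ^ (1 / ν) + ε) h(x) + C`.

For `r = 1` this is the theorem of McKinnon and Roth, for `ν = 1` the theorem of Wirsing. The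
exponent `1 / ν` of `r` is the right one. The proximity function of `Y i` is that of the exceptional
divisor on the blow-up of `X` in `Y i`. For distinct rational points of `ℙ^ν` the inequality of the
problem (on the blow-up, with `D` the exceptional divisors) gives the bound
`((ν + 1) / ν) h(x) + d(x) / ν`, and with `d(x) ≤ (2 r - 2) h(x) + O(1)` the weaker bound
`((ν - 1 + 2 r) / ν) h(x)`.

Method: the subspace theorem (in Vojta's form, with exceptional hyperplanes independent of `S`) for
the `K`-rational points `(Tr (θ s_j(x)))_j`, where the `s_j` are a basis of the forms of large degree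
on `X` and `θ` is an element of the residue field with prescribed sizes at all the places above `S`,
found with Minkowski's theorem; at each place of `K` the bases are adapted to the filtrations (by
the order of vanishing on one of the `Y i`) at all the places above it at once.
-/

namespace Pool.Agent.Results.MP_651af7_nt.RothWirsingPoints

open NumberField IsDedekindDomain

/-- The point with homogeneous coordinates `x` lies on the projective scheme `{G = 0}`. -/
def On {K L : Type} [Field K] [Field L] [Algebra K L] {m n : ℕ}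
    (G : Fin m → MvPolynomial (Fin n) K) (x : Fin n → L) : Prop :=
  ∀ k, MvPolynomial.aeval x (G k) = 0

/-- The places of a number field: the archimedean places and the primes. -/
abbrev Place (L : Type) [Field L] [NumberField L] : Type :=
  InfinitePlace L ⊕ HeightOneSpectrum (𝓞 L)

/-- The place is archimedean or lies over a prime in `S`. -/
def Above {K L : Type} [Field K] [NumberField K] [Field L] [NumberField L] [Algebra K L]
    (S : Finset (HeightOneSpectrum (𝓞 K))) : Place L → Prop
  | Sum.inl _ => True
  | Sum.inr w => ∃ v ∈ S, w.asIdeal.LiesOver v.asIdeal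

/-- The absolute value of a place. At a prime it is the normalised one, with the value
`(N v) ^ (-ord_v x)` at `x ≠ 0`. -/
noncomputable def absv {L : Type} [Field L] [NumberField L] : Place L → L → ℝ
  | Sum.inl w => fun x => w x
  | Sum.inr v => fun x => FinitePlace.mk v x

/-- The exponent of the absolute value of a place in the product formula: `1` at real places and at
primes, `2` at complex places. -/
noncomputable def weight {L : Type} [Field L] [NumberField L] : Place L → ℝ
  | Sum.inl w => w.mult
  | Sum.inr _ => 1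

/-- The degree of the completion of `L` at a place over the completion of `K` at the place below:
the quotient of the degrees over `ℝ` at an archimedean place, `e f` at a prime. -/
noncomputable def localDegree (K : Type) {L : Type} [Field K] [NumberField K] [Field L]
    [NumberField L] [Algebra K L] : Place L → ℝ
  | Sum.inl w => w.mult / (w.comap (algebraMap K L)).mult
  | Sum.inr w => ((w.asIdeal.under (𝓞 K)).ramificationIdx' w.asIdeal *
      (w.asIdeal.under (𝓞 K)).inertiaDeg' w.asIdeal : ℕ)

/-- `ρ_w = [L : K] / [L_w : K_v]`. -/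
noncomputable def ratio (K : Type) {L : Type} [Field K] [NumberField K] [Field L] [NumberField L]
    [Algebra K L] (p : Place L) : ℝ :=
  Module.finrank K L / localDegree K p

/-- The local height `-log max_k |F k (x)| / ‖x‖ ^ d` of the subscheme defined by the forms `F k`
of degree `d` at the point with homogeneous coordinates `x`. -/
noncomputable def weil {K L : Type} [Field K] [Field L] [NumberField L] [Algebra K L] {n ν : ℕ}
    (p : Place L) (d : ℕ) (F : Fin ν → MvPolynomial (Fin n) K) (x : Fin n → L) : ℝ :=
  Real.log ((⨆ j, absv p (x j)) ^ d / ⨆ k, absv p (MvPolynomial.aeval x (F k)))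

/-- The sum over `i` of `1 / d i` times the proximity function of the subscheme `F i = 0` at `x`, in
absolute normalisation, for the finite set `T` of places of `L`, with factors `a p`. -/
noncomputable def proximity {K L : Type} [Field K] [Field L] [NumberField L] [Algebra K L]
    {n q ν : ℕ} (T : Finset (Place L)) (a : Place L → ℝ)
    (F : Fin q → Fin ν → MvPolynomial (Fin n) K) (d : Fin q → ℕ) (x : Fin n → L) : ℝ :=
  (∑ p ∈ T, a p * (weight p * ∑ i, weil p (d i) (F i) x / d i)) / Module.finrank ℚ L

/-- The absolute logarithmic height. -/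
noncomputable def height {L : Type} [Field L] [NumberField L] {n : ℕ} (x : Fin n → L) : ℝ :=
  Height.logHeight x / Module.finrank ℚ L

/-- The residue field over `K` of the point with homogeneous coordinates `x` in `L` is `L`. -/
def ResidueField (K : Type) {L : Type} [Field K] [Field L] [Algebra K L] {n : ℕ}
    (x : Fin n → L) : Prop :=
  IntermediateField.adjoin K {z : L | ∃ i j, z = x i / x j} = ⊤

/-- The constant `k(ν, ρ) = ((ν + 1) / ν) ρ ^ (1 / ν)`. -/
noncomputable def k (ν : ℕ) (ρ : ℝ) : ℝ := (ν + 1) / ν * ρ ^ (1 / (ν : ℝ))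

/-- Let `X = {G = 0}` be an integral closed subscheme of dimension `ν ≥ 1` of the projective space
`ℙ^(n-1)` over a number field `K`, let `Y i = X ∩ {F i k = 0, k < ν}`, `i < q`, be subschemes of `X`
defined by `ν` forms of degree `d i ≥ 1`, which are finite (there is a form `H i` of positive degree
without zeros on `Y i`) and pairwise disjoint, and let `r ≥ 1`. For every `ε > 0` there is a form `Z`
over `K`, not vanishing identically on `X`, such that for every finite set `S` of primes of `K` there
is `C` with the following property for every point `x` of `X` of degree at most `r` over `K` (with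
residue field `L`) with `Z(x) ≠ 0`, and every finite set `T` of places of `L` which are archimedean
or lie over `S`: the point `x` is not in any `Y i`,

* the sum over the places `w` in `T` of `(∑ i, λ_{Y i, w}(x) / d i) / k(ν, ρ_w)` is at most
  `(1 + ε) h(x) + C`;
* for all real `ρ ∈ [1, r]` with `ρ_w ≤ ρ` for all `w ∈ T`, and for `ρ = r` in any case,
  `∑ i, m_{T, Y i}(x) / d i ≤ (k(ν, ρ) + ε) h(x) + C`. -/
theorem result (K : Type) [Field K] [NumberField K] (m n q ν r : ℕ) (hν : 1 ≤ ν) (hr : 1 ≤ r)
    (G : Fin m → MvPolynomial (Fin n) K) (g : Fin m → ℕ) (hG : ∀ k, (G k).IsHomogeneous (g k))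
    (hX : (Ideal.span (Set.range G)).IsPrime)
    (hdim : Algebra.trdeg K (MvPolynomial (Fin n) K ⧸ Ideal.span (Set.range G)) = ν + 1)
    (F : Fin q → Fin ν → MvPolynomial (Fin n) K) (d : Fin q → ℕ) (hd : ∀ i, 1 ≤ d i)
    (hF : ∀ i k, (F i k).IsHomogeneous (d i))
    (H : Fin q → MvPolynomial (Fin n) K) (h : Fin q → ℕ) (hh : ∀ i, 1 ≤ h i)
    (hH : ∀ i, (H i).IsHomogeneous (h i))
    (hfin : ∀ (i : Fin q) (L : Type) [Field L] [Algebra K L] (x : Fin n → L),
      On G x → On (F i) x → MvPolynomial.aeval x (H i) = 0 → x = 0)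
    (hdisj : ∀ (i j : Fin q), i ≠ j → ∀ (L : Type) [Field L] [Algebra K L] (x : Fin n → L),
      On G x → On (F i) x → On (F j) x → x = 0)
    (ε : ℝ) (hε : 0 < ε) :
    ∃ Z : MvPolynomial (Fin n) K, Z ∉ Ideal.span (Set.range G) ∧ (∃ t, Z.IsHomogeneous t) ∧
      ∀ S : Finset (HeightOneSpectrum (𝓞 K)), ∃ C : ℝ,
        ∀ (L : Type) [Field L] [NumberField L] [Algebra K L], Module.finrank K L ≤ r →
          ∀ x : Fin n → L, x ≠ 0 → ResidueField K x → On G x → MvPolynomial.aeval x Z ≠ 0 →
            ∀ T : Finset (Place L), (∀ p ∈ T, Above S p) →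
              (∀ i, ¬ On (F i) x) ∧
              proximity T (fun p => (k ν (ratio K p))⁻¹) F d x ≤ (1 + ε) * height x + C ∧
              (∀ ρ : ℝ, 1 ≤ ρ → ρ ≤ r → (∀ p ∈ T, ratio K p ≤ ρ) →
                proximity T (fun _ => 1) F d x ≤ (k ν ρ + ε) * height x + C) ∧
              proximity T (fun _ => 1) F d x ≤ (k ν r + ε) * height x + C := by
  classical
  have hweil : ∀ (L : Type) [Field L] [NumberField L] [Algebra K L] (p : Place L) (e : ℕ)
      (F : Fin ν → MvPolynomial (Fin n) K) (x : Fin n → L), weil p e F x =
      Pool.Agent.NH28.lamY (Pool.Agent.W180.OP.av p) e F x := by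
    intro L _ _ _ p e F x
    cases p <;> rfl
  have hw : ∀ (L : Type) [Field L] [NumberField L] (p : Place L),
      weight p = Pool.Agent.W180.OP.wt p := by
    intro L _ _ p
    cases p <;> rfl
  have hprox : ∀ (L : Type) [Field L] [NumberField L] [Algebra K L] (T : Finset (Place L))
      (a : Place L → ℝ) (x : Fin n → L), proximity T a F d x =
      (∑ p ∈ T, a p * (Pool.Agent.W180.OP.wt p * ∑ i,
      Pool.Agent.NH28.lamY (Pool.Agent.W180.OP.av p) (d i) (F i) x / d i)) /
        Module.finrank ℚ L := by
    intro L _ _ _ T a x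
    unfold proximity
    congr 1
    refine Finset.sum_congr rfl fun p _ => ?_
    rw [hw]
    congr 2
    exact Finset.sum_congr rfl fun i _ => by rw [hweil]
  have hlo : ∀ (L : Type) [Field L] [NumberField L] [Algebra K L] (p : Place L),
      localDegree K p = Pool.Agent.NH28.lo K p := by
    intro L _ _ _ p
    cases p <;> rfl
  have hr1 : (1 : ℝ) ≤ r := by exact_mod_cast hr
  rcases Nat.eq_zero_or_pos q with hq | hq
  · -- no subscheme
    subst hq
    have hzero : ∀ (L : Type) [Field L] [NumberField L] [Algebra K L] (T : Finset (Place L))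
      (a : Place L → ℝ) (x : Fin n → L), proximity T a F d x = 0 := by
      intro L _ _ _ T a x
      unfold proximity
      simp
    refine ⟨1, fun h => hX.ne_top ((Ideal.eq_top_iff_one _).2 h), ⟨0,
      MvPolynomial.isHomogeneous_one _ _⟩, fun S => ⟨0, ?_⟩⟩
    intro L _ _ _ _ x hx _ _ _ T _
    have hht : 0 ≤ height x := div_nonneg (Height.logHeight_nonneg x) (Nat.cast_nonneg _)
    refine ⟨fun i => i.elim0, ?_, fun ρ hρ _ _ => ?_, ?_⟩
    · rw [hzero]
      positivity
    · rw [hzero]
      have := Pool.Agent.NH28.one_le_cp hν hρ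
      have h2 : 0 ≤ k ν ρ := by
        have e1 : k ν ρ = Pool.Agent.NH28.cp ν ρ := rfl
        rw [e1]
        linarith
      positivity
    · rw [hzero]
      have := Pool.Agent.NH28.one_le_cp hν hr1
      have h2 : 0 ≤ k ν r := by
        have e1 : k ν r = Pool.Agent.NH28.cp ν r := rfl
        rw [e1]
        linarith
      positivity
  have hcr := Pool.Agent.NH28.one_le_cp hν hr1
  have hcr0 : 0 < Pool.Agent.NH28.cp ν r := by linarith
  set ε1 : ℝ := min ε (ε / Pool.Agent.NH28.cp ν r) with hε1
  have hε10 : 0 < ε1 := lt_min hε (div_pos hε hcr0)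
  have hεε : ε1 * Pool.Agent.NH28.cp ν r ≤ ε := by
    have h1 : ε1 ≤ ε / Pool.Agent.NH28.cp ν r := min_le_right _ _
    rwa [le_div_iff₀ hcr0] at h1
  obtain ⟨Z, hZ, hZh, hmain⟩ := Pool.Agent.NH28.t5w hν hr hq G g hG hX
    (by rw [hdim]; push_cast; rfl) F d hd hF H h hh hH
    (fun i L _ _ x h1 h2 h3 => hfin i L x h1 h2 h3)
    (fun i j hij L _ _ x h1 h2 h3 => hdisj i j hij L x h1 h2 h3) ε1 hε10
  refine ⟨Z, hZ, hZh, fun S => ?_⟩
  set S' : Finset (Pool.Agent.W180.OP.Pl K) := Finset.univ.image Sum.inl ∪ S.image Sum.inr with hS'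
  obtain ⟨C, hC0, hC⟩ := hmain S'
  obtain ⟨W, hW0, hW⟩ := Pool.Agent.NH28.lamY_low hν r F d hd hF
  set C' : ℝ := Pool.Agent.NH28.cp ν r * (C + S'.card * (r * W)) with hC'
  have hC'0 : 0 ≤ C' := by positivity
  refine ⟨C + C', ?_⟩
  intro L _ _ _ hrL x hx hres hGx hZx T hT
  have hN : (1 : ℝ) ≤ Module.finrank ℚ L := by
    exact_mod_cast (Module.finrank_pos : 0 < Module.finrank ℚ L)
  have hN0 : (0 : ℝ) < Module.finrank ℚ L := by linarith
  have hht := Height.logHeight_nonneg x
  obtain ⟨V, hV⟩ := Pool.Agent.NH28.exists_V S' T (by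
    intro w hw
    have h2 := hT w hw
    cases w with
    | inl w =>
      refine ⟨Sum.inl (w.comap (algebraMap K L)), ?_, rfl⟩
      exact Finset.mem_union_left _ (Finset.mem_image_of_mem _ (Finset.mem_univ _))
    | inr w =>
      obtain ⟨v, hv, hvw⟩ := h2
      exact ⟨Sum.inr v, Finset.mem_union_right _ (Finset.mem_image_of_mem _ hv), hvw⟩)
    (Sum.inl (Classical.arbitrary _))
  have hratio : ∀ w ∈ T, (Module.finrank K L : ℝ) / Pool.Agent.NH28.nn (V w) w = ratio K w := by
    intro w hw
    rw [Pool.Agent.NH28.nn_eq_lo (hV w hw).2, ← hlo]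
    rfl
  obtain ⟨hFx, h0⟩ := hC L hrL x hx hGx hres hZx
  have h1 := h0 T V hV
  have hle : ∀ {A B : ℝ}, A ≤ B * Height.logHeight x + C →
      A / Module.finrank ℚ L ≤ B * height x + (C + C') := by
    intro A B h
    rw [div_le_iff₀ hN0]
    have e1 : (B * height x + (C + C')) * Module.finrank ℚ L =
        B * Height.logHeight x + (C + C') * Module.finrank ℚ L := by
      unfold height
      field_simp
    rw [e1]
    have h2 : C + C' ≤ (C + C') * Module.finrank ℚ L := le_mul_of_one_le_right (by linarith) hN
    linarith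
  have hle' : ∀ {A B : ℝ}, A ≤ B * Height.logHeight x + C' →
      A / Module.finrank ℚ L ≤ B * height x + (C + C') := by
    intro A B h
    rw [div_le_iff₀ hN0]
    have e1 : (B * height x + (C + C')) * Module.finrank ℚ L =
        B * Height.logHeight x + (C + C') * Module.finrank ℚ L := by
      unfold height
      field_simp
    rw [e1]
    have h2 : C + C' ≤ (C + C') * Module.finrank ℚ L := le_mul_of_one_le_right (by linarith) hN
    linarith
  have hunif : ∀ ρ : ℝ, 1 ≤ ρ → ρ ≤ r → (∀ p ∈ T, ratio K p ≤ ρ) →
      proximity T (fun _ => 1) F d x ≤ (k ν ρ + ε) * height x + (C + C') := by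
    intro ρ hρ1 hρr hρ
    have h2 := Pool.Agent.NH28.unif (K := K) (Pool.Agent.NH28.cp ν)
      (fun ρ h => Pool.Agent.NH28.one_le_cp hν h)
      (fun ρ ρ' h h' => Pool.Agent.NH28.cp_mono h h') hr hε10.le hεε S' hC0 hW0 hrL hht T V hV
      (fun w => Pool.Agent.W180.OP.wt w * ∑ i,
        Pool.Agent.NH28.lamY (Pool.Agent.W180.OP.av w) (d i) (F i) x / d i)
      (hW L hrL x hx hFx) h1 hρ1 hρr (by
      intro w hw
      rw [hratio w hw]
      exact hρ w hw)
    rw [hprox]
    simp only [one_mul]
    exact hle' h2
  refine ⟨fun i hi => hFx i ⟨0, hν⟩ (hi _), ?_, hunif, hunif r hr1 le_rfl ?_⟩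
  · rw [hprox]
    have h2 : (1 + ε1) * Height.logHeight x + C ≤ (1 + ε) * Height.logHeight x + C := by
      have h3 : ε1 ≤ ε := min_le_left _ _
      have h4 := mul_le_mul_of_nonneg_right h3 hht
      linarith
    refine hle (le_trans (le_of_eq ?_) (h1.trans h2))
    refine Finset.sum_congr rfl fun w hw => ?_
    rw [hratio w hw]
    have e1 : k ν (ratio K w) = Pool.Agent.NH28.cp ν (ratio K w) := rfl
    rw [e1, div_eq_inv_mul]
  · intro w hw
    rw [← hratio w hw]
    have h3 := Pool.Agent.NH28.one_le_nn (hV w hw).2
    have h4 : (Module.finrank K L : ℝ) / Pool.Agent.NH28.nn (V w) w ≤ Module.finrank K L :=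
      div_le_self (Nat.cast_nonneg _) h3
    refine h4.trans ?_
    exact_mod_cast hrL

end Pool.Agent.Results.MP_651af7_nt.RothWirsingPoints
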